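import Mathlib

set_option autoImplicit false

open Set Filter Topology Cardinal

namespace Pool.Agent.Results.MP_fb95e7_gt.Counter

variable {K : Type} [TopologicalSpace K]

/-- A retractional skeleton indexed by the poset `Γ`. -/
structure IsSkeleton {Γ : Type} [PartialOrder Γ] (r : Γ → K → K) : Prop where
  ne : Nonempty Γ
  dir : ∀ s t : Γ, ∃ u, s ≤ u ∧ t ≤ u
  sigma : ∀ s : ℕ → Γ, Monotone s → ∃ t, IsLUB (range s) t
  cont : ∀ s, Continuous (r s)
  idem : ∀ s, r s ∘ r s = r s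
  metr : ∀ s, TopologicalSpace.MetrizableSpace (range (r s))
  comm : ∀ s t, s ≤ t → r s = r s ∘ r t ∧ r s = r t ∘ r s
  sup : ∀ s : ℕ → Γ, StrictMono s → ∀ t, IsLUB (range s) t → ∀ x,
    Tendsto (fun n => r (s n) x) atTop (𝓝 (r t x))
  lim : ∀ x, Tendsto (fun s => r s x) atTop (𝓝 x)

def induced {Γ : Type} (r : Γ → K → K) : Set K := ⋃ s, range (r s)

/-- Up to re-indexing, `R` is a subskeleton of `r`. -/
def IsSub {Λ Γ : Type} [PartialOrder Λ] [PartialOrder Γ] (R : Λ → K → K) (r : Γ → K → K) : Prop :=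
  ∃ Γ' : Set Γ, (∀ s, ∃ t ∈ Γ', s ≤ t) ∧
    (∀ s : ℕ → Γ, Monotone s → (∀ n, s n ∈ Γ') → ∀ t, IsLUB (range s) t → t ∈ Γ') ∧
    ∃ φ : Λ ≃o Γ', ∀ i, R i = r (φ i)

theorem result (K : Type) [TopologicalSpace K] [CompactSpace K] [T2Space K] (Γ : Type)
    [PartialOrder Γ] (r : Γ → K → K) (h : IsSkeleton r) :
    ∃ (Γ' : Type) (_ : PartialOrder Γ') (r' : Γ' → K → K), IsSkeleton r' ∧ induced r' = induced r ∧
      ∀ (Λ : Type) [PartialOrder Λ] (R : Λ → K → K), ¬(IsSub R r ∧ IsSub R r') := by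
  let S := {A : Set (Set (Γ × ℕ)) // A.Countable}
  let o : S := ⟨∅, countable_empty⟩
  obtain ⟨s₀⟩ := h.ne
  have dir : ∀ s t : Γ × S, ∃ u, s ≤ u ∧ t ≤ u := fun s t =>
    let ⟨u, a, b⟩ := h.dir s.1 t.1
    ⟨(u, ⟨_, s.2.2.union t.2.2⟩), ⟨a, subset_union_left⟩, b, subset_union_right⟩
  refine ⟨Γ × S, inferInstance, fun p => r p.1, ⟨⟨s₀, o⟩, dir, fun s hs => ?_, fun _ => h.cont _,
    fun _ => h.idem _, fun _ => h.metr _, fun _ _ e => h.comm _ _ e.1, fun s hs t ht x => ?_,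
    fun x => (h.lim x).comp ?_⟩, ?_, ?_⟩
  · obtain ⟨t, ht⟩ := h.sigma (fun n => (s n).1) fun _ _ e => (hs e).1
    refine ⟨(t, ⟨_, countable_iUnion fun n => (s n).2.2⟩), ?_, fun u hu =>
      ⟨ht.2 (forall_mem_range.2 fun n => (hu ⟨n, rfl⟩).1),
        iUnion_subset fun n => (hu ⟨n, rfl⟩).2⟩⟩
    exact forall_mem_range.2 fun n => ⟨ht.1 ⟨n, rfl⟩, subset_iUnion (fun n => (s n).2.1) n⟩
  · have m : Monotone fun n => (s n).1 := fun _ _ e => (hs.monotone e).1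
    have l : IsLUB (range fun n => (s n).1) t.1 := by
      simpa [← range_comp, Function.comp_def] using (isLUB_prod.1 ht).1
    by_cases c : ∃ n, (s n).1 = t.1
    · obtain ⟨n, e⟩ := c
      refine tendsto_const_nhds.congr' ((eventually_ge_atTop n).mono fun k hk => ?_)
      show r t.1 x = r (s k).1 x
      rw [show (s k).1 = t.1 from (l.1 ⟨k, rfl⟩).antisymm (e ▸ m hk)]
    · have : ∀ n, ∃ k, (s n).1 < (s k).1 := fun n => by_contra fun d => c ⟨n,
        (l.1 ⟨n, rfl⟩).antisymm (l.2 (forall_mem_range.2 fun k => (le_total k n).elim (m ·)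
          fun e => ((m e).eq_or_lt.resolve_right fun q => d ⟨k, q⟩).ge))⟩
      refine tendsto_of_subseq_tendsto fun ns hn => ?_
      choose g hg using fun n => (show ∃ j, (s (ns n)).1 < (s (ns j)).1 from
        let ⟨k, a⟩ := this (ns n)
        let ⟨j, b⟩ := (hn.eventually_ge_atTop k).exists
        ⟨j, a.trans_le (m b)⟩)
      have q : StrictMono fun i => (s (ns (g^[i] 0))).1 := strictMono_nat_of_lt_succ fun i => by
        rw [Function.iterate_succ_apply']; exact hg _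
      have q' : StrictMono fun i => ns (g^[i] 0) := fun i j e => m.reflect_lt (q e)
      exact ⟨fun i => g^[i] 0, h.sup _ q _ ⟨forall_mem_range.2 fun i => l.1 ⟨_, rfl⟩, fun u hu =>
        l.2 (forall_mem_range.2 fun n => (m q'.le_apply).trans (hu ⟨n, rfl⟩))⟩ x⟩
  · exact tendsto_atTop.2 fun b => (eventually_ge_atTop (b, o)).mono fun _ e => e.1
  · ext x
    simp only [induced, mem_iUnion]
    exact ⟨fun ⟨p, e⟩ => ⟨p.1, e⟩, fun ⟨p, e⟩ => ⟨(p, o), e⟩⟩
  · rintro Λ _ R ⟨⟨A, -, -, φ, -⟩, B, c, -, ψ, -⟩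
    have : Nonempty Γ := ⟨s₀⟩
    have e : (Set.univ : Set (Set (Γ × ℕ))) ⊆ ⋃ b : B, b.1.2.1 := fun x _ =>
      let ⟨t, a, b⟩ := c (s₀, ⟨{x}, countable_singleton x⟩)
      mem_iUnion.2 ⟨⟨t, a⟩, b.2 rfl⟩
    have := (mk_le_mk_of_subset e).trans ((mk_iUnion_le _).trans (mul_le_mul'
      ((mk_congr (ψ.symm.trans φ).toEquiv).trans_le (mk_set_le A))
      (ciSup_le' fun b => le_aleph0_iff_set_countable.2 b.1.2.2)))
    rw [mk_univ, mk_set] at this
    exact (cantor _).not_ge (by simpa using this)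

end Pool.Agent.Results.MP_fb95e7_gt.Counter
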